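import Pool.Agent.V11182.FanSix

/-! # Infinitely many `1/6`-homogeneous smooth fans

There are infinitely many pairwise non-homeomorphic smooth fans whose homeomorphism group has
exactly six orbits. The basic example consists of a blade `B = [t,e]` with marks `x_n` (`n` an
integer) that accumulate exactly at `t` and `e`, and of infinitely many further blades for each `n`,
which are isolated and converge to `[t,x_n]`. The six orbits are: the top, `{e}`, the marks, the
other interior points of `B`, the interior points and the endpoints of the other blades. The `m`-th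
fan consists of `2^m` copies of the basic example with a common top.

The definitions (`IsArc`, `IsSubcontinuum`, `HereditarilyUnicoherent`, `IsRamification`, `IsFan`,
`IsSeg`, `IsSmooth`) are in `Pool/Agent/H545R3/FanDefs.lean`. -/

set_option autoImplicit false

open Set Topology Filter Pool.Agent.H545R3.Fan

namespace Pool.Agent.Results.MP_2a55c9_gt.InfinitelyMany

/-- The orbit equivalence relation of the homeomorphism group of `X`. -/
def orbits (X : Type*) [TopologicalSpace X] : Setoid X where
  r p q := ∃ h : X ≃ₜ X, h p = q
  iseqv := ⟨fun p => ⟨Homeomorph.refl X, rfl⟩,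
    fun ⟨h, hp⟩ => ⟨h.symm, by rw [← hp]; exact h.symm_apply_apply _⟩,
    fun ⟨h, hp⟩ ⟨h', hp'⟩ => ⟨h.trans h', by rw [← hp', ← hp]; rfl⟩⟩

/-- `X` is `1/n`-homogeneous: the homeomorphism group of `X` has exactly `n` orbits on `X`
(`n` positive). -/
def OneOverHomogeneous (n : ℕ) (X : Type*) [TopologicalSpace X] : Prop :=
  0 < n ∧ Nat.card (Quotient (orbits X)) = n

/-- There are infinitely many pairwise non-homeomorphic `1/6`-homogeneous smooth fans (subspaces
`F m` of the plane with tops `t m`). -/
theorem result : ∃ (F : ℕ → Set (ℝ × ℝ)) (t : ∀ m, F m),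
    (∀ m, IsFan (F m) (t m) ∧ IsSmooth (t m) ∧ OneOverHomogeneous 6 (F m)) ∧
    ∀ m k, m ≠ k → ¬ Nonempty (F m ≃ₜ F k) := by
  refine ⟨fun m => Fan (Pool.Agent.V11182.FanSix.KM m),
    fun m => top (Pool.Agent.V11182.FanSix.good m), fun m => ⟨isFan _, isSmooth _, by norm_num, ?_⟩,
    ?_⟩
  · exact Pool.Agent.V11182.FanSix.six
  · rintro m k hmk ⟨h⟩
    exact hmk (Pool.Agent.V11182.FanSix.not_homeo' h)

end Pool.Agent.Results.MP_2a55c9_gt.InfinitelyMany
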